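import Mathlib
import Pool.Agent.H19W.TriDefs
import Pool.Agent.H19W.TriProof

/-!
# MP_73c65d_al, question Q2: negative answer

There are distinct primes `p, q, r` and infinitely many commutator words `u` for which the only
admissible degree is `5`.
-/

namespace Pool.Agent.Results.MP_73c65d_al.OnlyDegreeFive

open Pool.Agent.H19W

theorem result : ∃ p q r : ℕ, p.Prime ∧ q.Prime ∧ r.Prime ∧ p ≠ q ∧ p ≠ r ∧ q ≠ r ∧
    {u : FreeGroup (Fin 3) | u ∈ commutator (FreeGroup (Fin 3)) ∧
      {n : ℕ | Admissible p q r u n} = {5}}.Infinite :=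
  main

end Pool.Agent.Results.MP_73c65d_al.OnlyDegreeFive
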